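import Pool.Agent.Helper54.SR.Defs
import Pool.Agent.Helper92.PW.PullbackN

/-!
# SR-P1: pull-back along the Kummer covering `X = s ^ ℓ`
-/

set_option autoImplicit false
open scoped Pointwise
open Polynomial Pool.Agent.Helper54.PW

namespace Pool.Agent.Helper54.SR

/-- SR-P1 -/
theorem realAct_of_kummer {k F : Type} [Field k] [IsAlgClosed k] [Field F]
    [Algebra (RatFunc k) F] [FiniteDimensional (RatFunc k) F] [IsGalois (RatFunc k) F]
    {G : Type} [Group G] (P : Subgroup G) {ℓ : ℕ} (hℓ : 0 < ℓ) (s : F) (hs : s ^ ℓ = tX k F)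
    (ρ : (F ≃ₐ[RatFunc k] F) →* G) (h1 : ∀ g, ∃ σ : F ≃ₐ[RatFunc k] F, σ s = s ∧ ρ σ = g)
    (h2 : ∀ A : ValuationSubring F, IsPl k A → s ∈ A →
      ∀ σ : F ≃ₐ[RatFunc k] F, σ s = s → σ • A = A → ρ σ = 1)
    (B : ValuationSubring F) (hB : IsPl k B) (hsB : s ∉ B)
    (h3 : ∀ g, g ∈ P ↔ ∃ σ : F ≃ₐ[RatFunc k] F, σ s = s ∧ σ • B = B ∧ ρ σ = g) :
    RealAct k P := by
  let _ : Algebra k F := ((algebraMap (RatFunc k) F).comp (algebraMap k (RatFunc k))).toAlgebra
  have _ : IsScalarTower k (RatFunc k) F := IsScalarTower.of_algebraMap_eq fun _ => rfl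
  have hXtr : ∀ {x : F}, x ^ ℓ = tX k F → Transcendental k x := by
    intro x hx h
    have h4 : IsAlgebraic k (tX k F) := by
      rw [← hx]
      exact h.pow ℓ
    apply cc_transcendental_X k
    rw [tX, ← IsScalarTower.coe_toAlgHom' k (RatFunc k) F] at h4
    exact (isAlgebraic_algHom_iff _ (algebraMap (RatFunc k) F).injective).1 h4
  have hztr : Transcendental k s := hXtr hs
  have hinj : Function.Injective (Polynomial.aeval s : k[X] →ₐ[k] F) :=
    transcendental_iff_injective.1 hztr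
  obtain ⟨ψ, hψX⟩ : ∃ ψ : RatFunc k →ₐ[k] F, ψ RatFunc.X = s := by
    refine ⟨RatFunc.liftAlgHom (Polynomial.aeval s)
      (nonZeroDivisors_le_comap_nonZeroDivisors_of_injective _ hinj), ?_⟩
    have := RatFunc.liftAlgHom_apply_div (Polynomial.aeval s)
      (nonZeroDivisors_le_comap_nonZeroDivisors_of_injective _ hinj) Polynomial.X 1
    simpa using this
  set u : RatFunc k := RatFunc.X ^ ℓ with hu
  have hψu : ψ u = tX k F := by
    rw [hu, map_pow, hψX, hs]
  have hutr : Transcendental k u := by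
    intro h
    have h4 : IsAlgebraic k (tX k F) := by
      rw [← hψu]
      exact h.algHom ψ
    apply cc_transcendental_X k
    rw [tX, ← IsScalarTower.coe_toAlgHom' k (RatFunc k) F] at h4
    exact (isAlgebraic_algHom_iff _ (algebraMap (RatFunc k) F).injective).1 h4
  obtain ⟨θ, hθ⟩ := cc_exists_hom k u hutr
  have hψθ : ∀ f, (ψ : RatFunc k →+* F) ((θ : RatFunc k →+* RatFunc k) f)
      = algebraMap (RatFunc k) F f := by
    have : (ψ : RatFunc k →+* F).comp (θ : RatFunc k →+* RatFunc k)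
        = algebraMap (RatFunc k) F := by
      apply cc_hom_ext
      · intro c
        show ψ (θ (algebraMap k _ c)) = _
        rw [θ.commutes, ψ.commutes, IsScalarTower.algebraMap_apply k (RatFunc k) F]
      · show ψ (θ RatFunc.X) = _
        rw [hθ, hψu, tX]
    intro f
    exact congrArg (fun g : RatFunc k →+* F => g f) this
  obtain ⟨hfd, hgal⟩ := @pn_tower (RatFunc k) (RatFunc k) F _ _ _ _
    (ψ : RatFunc k →+* F).toAlgebra (θ : RatFunc k →+* RatFunc k) hψθ _ _
  refine ⟨F, inferInstance, (ψ : RatFunc k →+* F).toAlgebra, hfd, hgal, ?_⟩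
  exact @pn_core k F F _ _ _ _ _ _ _ (ψ : RatFunc k →+* F).toAlgebra G _ P s
    (ψ : RatFunc k →+* F) (θ : RatFunc k →+* RatFunc k) hψθ (RingEquiv.refl F) (fun _ => rfl)
    (fun a => ψ.commutes a) hψX ρ h1 h2 B hB hsB h3

end Pool.Agent.Helper54.SR
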